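import Pool.Agent.Work.MP_59976d_co_even_helper60.KS
import Pool.Agent.Work.MP_59976d_co_even.Basic

/-!
Block E0: it suffices to treat uniquely represented lost sums.
-/

namespace Pool.Agent.Work.MP_59976d_co

open Finset
open scoped Pointwise

universe u

section

variable {G : Type u} [AddCommGroup G]

lemma zm_ne_bot {σ : G} (h0 : σ ≠ 0) : AddSubgroup.zmultiples σ ≠ ⊥ := by
  rw [Ne, AddSubgroup.zmultiples_eq_bot]; exact h0

variable [Finite G]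

lemma mem_L1_iff {σ : G} (h2 : σ + σ = 0) {A : Finset G} {i : G ⧸ AddSubgroup.zmultiples σ} :
    i ∈ L1 σ A ↔ ∃ a ∈ A, (QuotientAddGroup.mk a : G ⧸ AddSubgroup.zmultiples σ) = i := by
  constructor
  · intro hi
    obtain ⟨x, rfl⟩ := QuotientAddGroup.mk_surjective i
    rcases (mk_mem_L1 h2).1 hi with h | h
    · exact ⟨x, h, rfl⟩
    · exact ⟨x + σ, h, ((mk_eq_iff_two h2).2 (Or.inr rfl)).symm⟩
  · rintro ⟨a, ha, rfl⟩
    exact (mk_mem_L1 h2).2 (Or.inl ha)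

lemma mem_L2_iff {σ : G} (h0 : σ ≠ 0) (h2 : σ + σ = 0) {A : Finset G}
    {i : G ⧸ AddSubgroup.zmultiples σ} :
    i ∈ L2 σ A ↔ ∃ a ∈ A, a + σ ∈ A ∧
      (QuotientAddGroup.mk a : G ⧸ AddSubgroup.zmultiples σ) = i := by
  constructor
  · intro hi
    obtain ⟨x, rfl⟩ := QuotientAddGroup.mk_surjective i
    obtain ⟨h, h'⟩ := (mk_mem_L2 h0 h2).1 hi
    exact ⟨x, h, h', rfl⟩
  · rintro ⟨a, ha, ha', rfl⟩
    exact (mk_mem_L2 h0 h2).2 ⟨ha, ha'⟩

variable [DecidableEq G]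

/-- `C² ⊇ A² ∔ B¹`. -/
lemma rs_L2_L1 {σ : G} (h0 : σ ≠ 0)
    (h2 : σ + σ = 0) [DecidableEq (G ⧸ AddSubgroup.zmultiples σ)] (A B : Finset G) :
    rs (L2 σ A) (L1 σ B) ⊆ L2 σ (rs A B) := by
  intro t ht
  rw [mem_rs] at ht
  obtain ⟨i, hi, j, hj, hne, rfl⟩ := ht
  obtain ⟨a, ha, ha', rfl⟩ := (mem_L2_iff h0 h2).1 hi
  obtain ⟨b, hb, rfl⟩ := (mem_L1_iff h2).1 hj
  rw [← QuotientAddGroup.mk_add, mk_mem_L2 h0 h2]
  constructor
  · refine mem_rs.2 ⟨a, ha, b, hb, ?_, rfl⟩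
    rintro rfl; exact hne rfl
  · refine mem_rs.2 ⟨a + σ, ha', b, hb, ?_, by abel⟩
    rintro rfl
    exact hne ((mk_eq_iff_two h2).2 (Or.inr rfl))

end

/-- Block E0. -/
theorem stmt_E0 : Stmt_E0.{u} := by
  intro G _ _ hQuo hRS
  classical
  rw [ll_iff]
  intro A B h0A h0B hdiag
  set D := A.filter (fun a => -a ∈ B) with hD
  by_cases hone : ∀ a ∈ A, -a ∈ B → a = 0
  · -- admissible
    have h1 := (restrictedScherk_iff.1 hRS) A B ⟨h0A, h0B, hone⟩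
    have h3 : 1 ≤ D.card := by
      rw [Nat.one_le_iff_ne_zero, ← Nat.pos_iff_ne_zero, card_pos]
      exact ⟨0, by rw [hD, mem_filter]; exact ⟨h0A, by rw [neg_zero]; exact h0B⟩⟩
    omega
  · push Not at hone
    obtain ⟨τ, hτA, hτB, hτ0⟩ := hone
    have hτ2 := hdiag τ hτA hτB
    have hneg : -τ = τ := by rw [neg_eq_iff_add_eq_zero]; exact hτ2
    rw [hneg] at hτB
    have hLL := hQuo (AddSubgroup.zmultiples τ) (zm_ne_bot hτ0)
    rw [ll_iff] at hLL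
    -- the two cells
    have c1 : L1 τ A + L2 τ B ⊆ L1 τ (rs A B) := by
      intro t ht
      rw [mem_add] at ht
      obtain ⟨i, hi, j, hj, rfl⟩ := ht
      obtain ⟨a, ha, rfl⟩ := (mem_L1_iff hτ2).1 hi
      obtain ⟨b, hb, hb', rfl⟩ := (mem_L2_iff hτ0 hτ2).1 hj
      rw [← QuotientAddGroup.mk_add, mk_mem_L1 hτ2]
      by_cases hab : a = b
      · right
        refine mem_rs.2 ⟨a, ha, b + τ, hb', ?_, by abel⟩
        rw [hab]
        intro h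
        exact hτ0 (by simpa using h)
      · left
        exact mem_rs.2 ⟨a, ha, b, hb, hab, rfl⟩
    have c2 := rs_L2_L1 hτ0 hτ2 A B
    have z1A : (0 : G ⧸ AddSubgroup.zmultiples τ) ∈ L1 τ A := (mem_L1_iff hτ2).2 ⟨0, h0A, rfl⟩
    have z1B : (0 : G ⧸ AddSubgroup.zmultiples τ) ∈ L1 τ B := (mem_L1_iff hτ2).2 ⟨0, h0B, rfl⟩
    have z2A : (0 : G ⧸ AddSubgroup.zmultiples τ) ∈ L2 τ A :=
      (mem_L2_iff hτ0 hτ2).2 ⟨0, h0A, by rwa [zero_add], rfl⟩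
    have z2B : (0 : G ⧸ AddSubgroup.zmultiples τ) ∈ L2 τ B :=
      (mem_L2_iff hτ0 hτ2).2 ⟨0, h0B, by rwa [zero_add], rfl⟩
    have k1 := stmt_KS (G ⧸ AddSubgroup.zmultiples τ) (L1 τ A) (L2 τ B) 0
      (mem_add.2 ⟨0, z1A, 0, z2B, add_zero 0⟩)
    have k2 := hLL (L2 τ A) (L1 τ B) z2A z1B (by
      intro i hi hi'
      obtain ⟨a, ha, ha', rfl⟩ := (mem_L2_iff hτ0 hτ2).1 hi
      rw [← QuotientAddGroup.mk_neg, mk_mem_L1 hτ2] at hi'
      have h2a : a + a = 0 := by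
        rcases hi' with h | h
        · exact hdiag a ha h
        · have e : -(a + τ) = -a + τ := by rw [neg_add, hneg]
          have h3 := hdiag (a + τ) ha' (by rw [e]; exact h)
          have e2 : a + a = (a + τ + (a + τ)) - (τ + τ) := by abel
          rw [e2, h3, hτ2, sub_zero]
      rw [← QuotientAddGroup.mk_add, h2a, QuotientAddGroup.mk_zero])
    set R1 := (L1 τ A).filter (fun x => 0 - x ∈ L2 τ B) with hR1
    set R2 := (L2 τ A).filter (fun a => -a ∈ L1 τ B) with hR2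
    have u1 : R1 ∪ R2 ⊆ L1 τ D := by
      intro i hi
      rw [mem_union, hR1, hR2, mem_filter, mem_filter] at hi
      rcases hi with ⟨h, h'⟩ | ⟨h, h'⟩
      · obtain ⟨a, ha, rfl⟩ := (mem_L1_iff hτ2).1 h
        rw [zero_sub, ← QuotientAddGroup.mk_neg, mk_mem_L2 hτ0 hτ2] at h'
        exact (mem_L1_iff hτ2).2 ⟨a, mem_filter.2 ⟨ha, h'.1⟩, rfl⟩
      · obtain ⟨a, ha, ha', rfl⟩ := (mem_L2_iff hτ0 hτ2).1 h
        rw [← QuotientAddGroup.mk_neg, mk_mem_L1 hτ2] at h'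
        rcases h' with h' | h'
        · exact (mem_L1_iff hτ2).2 ⟨a, mem_filter.2 ⟨ha, h'⟩, rfl⟩
        · have e : -(a + τ) = -a + τ := by rw [neg_add, hneg]
          refine (mem_L1_iff hτ2).2 ⟨a + τ, mem_filter.2 ⟨ha', by rw [e]; exact h'⟩, ?_⟩
          exact ((mk_eq_iff_two hτ2).2 (Or.inr rfl)).symm
    have u2 : R1 ∩ R2 ⊆ L2 τ D := by
      intro i hi
      rw [mem_inter, hR1, hR2, mem_filter, mem_filter] at hi
      obtain ⟨⟨_, h'⟩, ⟨h, _⟩⟩ := hi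
      obtain ⟨a, ha, ha', rfl⟩ := (mem_L2_iff hτ0 hτ2).1 h
      rw [zero_sub, ← QuotientAddGroup.mk_neg, mk_mem_L2 hτ0 hτ2] at h'
      have e : -(a + τ) = -a + τ := by rw [neg_add, hneg]
      exact (mem_L2_iff hτ0 hτ2).2 ⟨a, mem_filter.2 ⟨ha, h'.1⟩,
        mem_filter.2 ⟨ha', by rw [e]; exact h'.2⟩, rfl⟩
    have u3 := card_union_add_card_inter R1 R2
    have u4 := card_le_card u1
    have u5 := card_le_card u2
    have v1 := card_le_card c1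
    have v2 := card_le_card c2
    have w1 := card_eq_L1_add_L2 hτ0 hτ2 A
    have w2 := card_eq_L1_add_L2 hτ0 hτ2 B
    have w3 := card_eq_L1_add_L2 hτ0 hτ2 (rs A B)
    have w4 := card_eq_L1_add_L2 hτ0 hτ2 D
    omega

end Pool.Agent.Work.MP_59976d_co
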