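import Pool.Agent.Work.MP_59976d_co_even_helper60.E0

/-!
Blocks S1 and S2a: an involution in `A ∪ B`, an involution outside `A + B`.
-/

namespace Pool.Agent.Work.MP_59976d_co

open Finset
open scoped Pointwise

universe u

/-- Scherk's inequality in the form used here. -/
lemma scherk_zero {Q : Type u} [AddCommGroup Q] [Finite Q] [DecidableEq Q] (X Y : Finset Q)
    (hX : (0 : Q) ∈ X) (hY : (0 : Q) ∈ Y) (h : ∀ i ∈ X, -i ∈ Y → i = 0) :
    X.card + Y.card ≤ (X + Y).card + 1 := by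
  have h1 := stmt_KS Q X Y 0 (mem_add.2 ⟨0, hX, 0, hY, add_zero 0⟩)
  have h2 : (X.filter (fun x => 0 - x ∈ Y)).card ≤ 1 := by
    rw [card_le_one]
    intro a ha b hb
    rw [mem_filter, zero_sub] at ha hb
    rw [h a ha.1 ha.2, h b hb.1 hb.2]
  omega

section

variable {G : Type u} [AddCommGroup G] [Finite G] [DecidableEq G]

/-- `C¹ ⊇ A¹ + B²`. -/
lemma L1_add_L2 {σ : G} (h0 : σ ≠ 0) (h2 : σ + σ = 0)
    [DecidableEq (G ⧸ AddSubgroup.zmultiples σ)] (A B : Finset G) :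
    L1 σ A + L2 σ B ⊆ L1 σ (rs A B) := by
  intro t ht
  rw [mem_add] at ht
  obtain ⟨i, hi, j, hj, rfl⟩ := ht
  obtain ⟨a, ha, rfl⟩ := (mem_L1_iff h2).1 hi
  obtain ⟨b, hb, hb', rfl⟩ := (mem_L2_iff h0 h2).1 hj
  rw [← QuotientAddGroup.mk_add, mk_mem_L1 h2]
  by_cases hab : a = b
  · right
    refine mem_rs.2 ⟨a, ha, b + σ, hb', ?_, by abel⟩
    rw [hab]
    intro h
    exact h0 (by simpa using h)
  · left
    exact mem_rs.2 ⟨a, ha, b, hb, hab, rfl⟩

/-- `C¹ ⊇ A¹ ∔ B¹`. -/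
lemma rs_L1_L1 {σ : G} (h2 : σ + σ = 0)
    [DecidableEq (G ⧸ AddSubgroup.zmultiples σ)] (A B : Finset G) :
    rs (L1 σ A) (L1 σ B) ⊆ L1 σ (rs A B) := by
  intro t ht
  rw [mem_rs] at ht
  obtain ⟨i, hi, j, hj, hne, rfl⟩ := ht
  obtain ⟨a, ha, rfl⟩ := (mem_L1_iff h2).1 hi
  obtain ⟨b, hb, rfl⟩ := (mem_L1_iff h2).1 hj
  rw [← QuotientAddGroup.mk_add]
  refine (mem_L1_iff h2).2 ⟨a + b, mem_rs.2 ⟨a, ha, b, hb, ?_, rfl⟩, rfl⟩
  rintro rfl; exact hne rfl

/-- `C² ⊇ A¹ ∔ B²`. -/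
lemma rs_L1_L2 {σ : G} (h0 : σ ≠ 0)
    (h2 : σ + σ = 0) [DecidableEq (G ⧸ AddSubgroup.zmultiples σ)] (A B : Finset G) :
    rs (L1 σ A) (L2 σ B) ⊆ L2 σ (rs A B) := by
  rw [rs_comm, rs_comm A B]
  exact rs_L2_L1 h0 h2 B A

lemma s1_aux (A B : Finset G) (σ : G) (h0 : σ ≠ 0) (h2 : σ + σ = 0)
    (hQ : RestrictedScherk (G ⧸ AddSubgroup.zmultiples σ)) (hadm : Adm A B) (hσ : σ ∈ A) :
    A.card + B.card ≤ (rs A B).card + 3 := by
  classical
  have hneg : -σ = σ := by rw [neg_eq_iff_add_eq_zero]; exact h2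
  have hσB : σ ∉ B := fun h => h0 (hadm.uniq σ hσ (by rw [hneg]; exact h))
  have hsub : L1 σ A + insert 0 (L2 σ B) ⊆ L1 σ (rs A B) := by
    intro t ht
    rw [mem_add] at ht
    obtain ⟨i, hi, j, hj, rfl⟩ := ht
    rw [mem_insert] at hj
    rcases hj with rfl | hj
    · rw [add_zero]
      obtain ⟨a, ha, rfl⟩ := (mem_L1_iff h2).1 hi
      rw [mk_mem_L1 h2]
      by_cases ha0 : a = 0
      · subst ha0
        right
        exact mem_rs.2 ⟨σ, hσ, 0, hadm.zB, h0, by rw [add_comm]⟩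
      · left
        exact mem_rs.2 ⟨a, ha, 0, hadm.zB, ha0, add_zero a⟩
    · exact L1_add_L2 h0 h2 A B (mem_add.2 ⟨i, hi, j, hj, rfl⟩)
  have z1A : (0 : G ⧸ AddSubgroup.zmultiples σ) ∈ L1 σ A :=
    (mem_L1_iff h2).2 ⟨0, hadm.zA, rfl⟩
  have z1B : (0 : G ⧸ AddSubgroup.zmultiples σ) ∈ L1 σ B :=
    (mem_L1_iff h2).2 ⟨0, hadm.zB, rfl⟩
  have z2A : (0 : G ⧸ AddSubgroup.zmultiples σ) ∈ L2 σ A :=
    (mem_L2_iff h0 h2).2 ⟨0, hadm.zA, by rwa [zero_add], rfl⟩
  have z2B : (0 : G ⧸ AddSubgroup.zmultiples σ) ∉ L2 σ B := by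
    intro h
    rw [← QuotientAddGroup.mk_zero, mk_mem_L2 h0 h2, zero_add] at h
    exact hσB h.2
  have k1 := scherk_zero (L1 σ A) (insert 0 (L2 σ B)) z1A (mem_insert_self _ _) (by
    intro i hi hi'
    rw [mem_insert, neg_eq_zero] at hi'
    rcases hi' with h | h
    · exact h
    · obtain ⟨a, ha, rfl⟩ := (mem_L1_iff h2).1 hi
      rw [← QuotientAddGroup.mk_neg, mk_mem_L2 h0 h2] at h
      rw [hadm.uniq a ha h.1, QuotientAddGroup.mk_zero])
  rw [card_insert_of_notMem z2B] at k1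
  have k2 := (restrictedScherk_iff.1 hQ) (L2 σ A) (L1 σ B) ⟨z2A, z1B, by
    intro i hi hi'
    obtain ⟨a, ha, ha', rfl⟩ := (mem_L2_iff h0 h2).1 hi
    rw [← QuotientAddGroup.mk_neg, mk_mem_L1 h2] at hi'
    rcases hi' with h | h
    · rw [hadm.uniq a ha h, QuotientAddGroup.mk_zero]
    · have e : -(a + σ) = -a + σ := by rw [neg_add, hneg]
      have h3 := hadm.uniq (a + σ) ha' (by rw [e]; exact h)
      have h4 : (QuotientAddGroup.mk a : G ⧸ AddSubgroup.zmultiples σ) =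
        QuotientAddGroup.mk (a + σ) := (mk_eq_iff_two h2).2 (Or.inr rfl)
      rw [h4, h3, QuotientAddGroup.mk_zero]⟩
  have v1 := card_le_card hsub
  have v2 := card_le_card (rs_L2_L1 h0 h2 A B)
  have w1 := card_eq_L1_add_L2 h0 h2 A
  have w2 := card_eq_L1_add_L2 h0 h2 B
  have w3 := card_eq_L1_add_L2 h0 h2 (rs A B)
  omega

end

/-- Block S1. -/
theorem stmt_S1 : Stmt_S1.{u} := by
  intro G _ _ _ A B σ h0 h2 hQ hadm hσ
  rcases hσ with h | h
  · exact s1_aux A B σ h0 h2 hQ hadm h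
  · have := s1_aux B A σ h0 h2 hQ hadm.symm h
    rw [rs_comm] at this
    omega

/-- Block S2a. -/
theorem stmt_S2a : Stmt_S2a.{u} := by
  intro G _ _ _ A B σ h0 h2 hQ hadm hσ
  classical
  have hneg : -σ = σ := by rw [neg_eq_iff_add_eq_zero]; exact h2
  have hσA : σ ∉ A := fun h => hσ (mem_add.2 ⟨σ, h, 0, hadm.zB, add_zero σ⟩)
  have hσB : σ ∉ B := fun h => hσ (mem_add.2 ⟨0, hadm.zA, σ, h, zero_add σ⟩)
  have z1A : (0 : G ⧸ AddSubgroup.zmultiples σ) ∈ L1 σ A :=
    (mem_L1_iff h2).2 ⟨0, hadm.zA, rfl⟩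
  have z1B : (0 : G ⧸ AddSubgroup.zmultiples σ) ∈ L1 σ B :=
    (mem_L1_iff h2).2 ⟨0, hadm.zB, rfl⟩
  have z2A : (0 : G ⧸ AddSubgroup.zmultiples σ) ∉ L2 σ A := by
    intro h
    rw [← QuotientAddGroup.mk_zero, mk_mem_L2 h0 h2, zero_add] at h
    exact hσA h.2
  have z2B : (0 : G ⧸ AddSubgroup.zmultiples σ) ∉ L2 σ B := by
    intro h
    rw [← QuotientAddGroup.mk_zero, mk_mem_L2 h0 h2, zero_add] at h
    exact hσB h.2
  have hu : ∀ i ∈ L1 σ A, -i ∈ L1 σ B → i = 0 := by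
    intro i hi hi'
    obtain ⟨a, ha, rfl⟩ := (mem_L1_iff h2).1 hi
    rw [← QuotientAddGroup.mk_neg, mk_mem_L1 h2] at hi'
    rcases hi' with h | h
    · rw [hadm.uniq a ha h, QuotientAddGroup.mk_zero]
    · exfalso
      exact hσ (mem_add.2 ⟨a, ha, -a + σ, h, by abel⟩)
  have hadm1 : Adm (L1 σ A) (L1 σ B) := ⟨z1A, z1B, hu⟩
  have k1 := (restrictedScherk_iff.1 hQ) _ _ hadm1
  have v1 := card_le_card (rs_L1_L1 h2 A B)
  have w1 := card_eq_L1_add_L2 h0 h2 A
  have w2 := card_eq_L1_add_L2 h0 h2 B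
  have w3 := card_eq_L1_add_L2 h0 h2 (rs A B)
  -- sums of classes where one of them is full or zero
  have c20 : ∀ i ∈ L2 σ A, i ∈ L2 σ (rs A B) := by
    intro i hi
    have hne : i ≠ 0 := by rintro rfl; exact z2A hi
    have := rs_L2_L1 h0 h2 A B (mem_rs.2 ⟨i, hi, 0, z1B, hne, rfl⟩)
    rwa [add_zero] at this
  have c02 : ∀ j ∈ L2 σ B, j ∈ L2 σ (rs A B) := by
    intro j hj
    have hne : 0 ≠ j := by rintro rfl; exact z2B hj
    have := rs_L1_L2 h0 h2 A B (mem_rs.2 ⟨0, z1A, j, hj, hne, rfl⟩)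
    rwa [zero_add] at this
  by_cases hcase : ∀ t ∈ L1 σ A + L1 σ B, t ≠ 0 → t ∈ L1 σ (rs A B)
  · have k2 := scherk_zero (L1 σ A) (L1 σ B) z1A z1B hu
    have k3 : ((L1 σ A + L1 σ B).erase 0).card ≤ (L1 σ (rs A B)).card := by
      apply card_le_card
      intro t ht
      rw [mem_erase] at ht
      exact hcase t ht.2 ht.1
    have k4 : (L1 σ A + L1 σ B).card ≤ ((L1 σ A + L1 σ B).erase 0).card + 1 := by
      have := pred_card_le_card_erase (s := L1 σ A + L1 σ B) (a := 0)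
      omega
    have hadm2 : Adm (insert 0 (L2 σ A)) (insert 0 (L2 σ B)) := by
      refine ⟨mem_insert_self _ _, mem_insert_self _ _, ?_⟩
      intro i hi hi'
      apply hu
      · rcases mem_insert.1 hi with h | h
        · rw [h]; exact z1A
        · exact L2_subset_L1 h
      · rcases mem_insert.1 hi' with h | h
        · rw [h]; exact z1B
        · exact L2_subset_L1 h
    have k5 := (restrictedScherk_iff.1 hQ) _ _ hadm2
    rw [card_insert_of_notMem z2A, card_insert_of_notMem z2B] at k5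
    have hsub : rs (insert 0 (L2 σ A)) (insert 0 (L2 σ B)) ⊆ L2 σ (rs A B) := by
      intro t ht
      rw [mem_rs] at ht
      obtain ⟨i, hi, j, hj, hne, rfl⟩ := ht
      rw [mem_insert] at hi hj
      rcases hi with rfl | hi
      · rcases hj with rfl | hj
        · exact absurd rfl hne
        · rw [zero_add]; exact c02 j hj
      · rcases hj with rfl | hj
        · rw [add_zero]; exact c20 i hi
        · exact rs_L2_L1 h0 h2 A B (mem_rs.2 ⟨i, hi, j, L2_subset_L1 hj, hne, rfl⟩)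
    have v2 := card_le_card hsub
    omega
  · push Not at hcase
    obtain ⟨t, ht, ht0, htC⟩ := hcase
    rw [mem_add] at ht
    obtain ⟨i, hi, j, hj, rfl⟩ := ht
    have hij : i = j := by
      by_contra hne
      exact htC (rs_L1_L1 h2 A B (mem_rs.2 ⟨i, hi, j, hj, hne, rfl⟩))
    subst hij
    have hi0 : i ≠ 0 := by
      rintro rfl; exact ht0 (add_zero 0)
    have hiA : i ∉ L2 σ A := by
      intro h
      apply htC
      have := L1_add_L2 h0 h2 B A (mem_add.2 ⟨i, hj, i, h, rfl⟩)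
      rwa [rs_comm] at this
    have hiB : i ∉ L2 σ B := by
      intro h
      exact htC (L1_add_L2 h0 h2 A B (mem_add.2 ⟨i, hi, i, h, rfl⟩))
    have nA : (0 : G ⧸ AddSubgroup.zmultiples σ) ∉ insert i (L2 σ A) := by
      rw [mem_insert]; rintro (h | h)
      · exact hi0 h.symm
      · exact z2A h
    have nB : (0 : G ⧸ AddSubgroup.zmultiples σ) ∉ insert i (L2 σ B) := by
      rw [mem_insert]; rintro (h | h)
      · exact hi0 h.symm
      · exact z2B h
    have hadm2 : Adm (insert 0 (insert i (L2 σ A))) (insert 0 (insert i (L2 σ B))) := by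
      refine ⟨mem_insert_self _ _, mem_insert_self _ _, ?_⟩
      intro k hk hk'
      apply hu
      · rcases mem_insert.1 hk with h | h
        · rw [h]; exact z1A
        · rcases mem_insert.1 h with h | h
          · rw [h]; exact hi
          · exact L2_subset_L1 h
      · rcases mem_insert.1 hk' with h | h
        · rw [h]; exact z1B
        · rcases mem_insert.1 h with h | h
          · rw [h]; exact hj
          · exact L2_subset_L1 h
    have k5 := (restrictedScherk_iff.1 hQ) _ _ hadm2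
    rw [card_insert_of_notMem nA, card_insert_of_notMem nB, card_insert_of_notMem hiA,
      card_insert_of_notMem hiB] at k5
    have hsub : rs (insert 0 (insert i (L2 σ A))) (insert 0 (insert i (L2 σ B))) ⊆
        insert i (L2 σ (rs A B)) := by
      intro t ht
      rw [mem_rs] at ht
      obtain ⟨k, hk, l, hl, hne, rfl⟩ := ht
      rw [mem_insert, mem_insert] at hk hl
      rw [mem_insert]
      rcases hk with rfl | rfl | hk
      · rcases hl with rfl | rfl | hl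
        · exact absurd rfl hne
        · left; rw [zero_add]
        · right; rw [zero_add]; exact c02 l hl
      · rcases hl with rfl | rfl | hl
        · left; rw [add_zero]
        · exact absurd rfl hne
        · right; exact rs_L1_L2 h0 h2 A B (mem_rs.2 ⟨_, hi, l, hl, hne, rfl⟩)
      · rcases hl with rfl | rfl | hl
        · right; rw [add_zero]; exact c20 k hk
        · right; exact rs_L2_L1 h0 h2 A B (mem_rs.2 ⟨k, hk, _, hj, hne, rfl⟩)
        · right; exact rs_L2_L1 h0 h2 A B (mem_rs.2 ⟨k, hk, l, L2_subset_L1 hl, hne, rfl⟩)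
    have v2 := card_le_card hsub
    have v3 := card_insert_le i (L2 σ (rs A B))
    omega

end Pool.Agent.Work.MP_59976d_co
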