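import Pool.Agent.Work.MP_59976d_co_even.Interface
import Pool.Agent.Work.MP_59976d_co_odd.KN
import Pool.Agent.Work.MP_59976d_co_odd.SC

/-!
Block KS: the Kemperman-Scherk inequality.
-/

namespace Pool.Agent.Work.MP_59976d_co

open Finset
open scoped Pointwise

universe u

/-- Block KS. -/
theorem stmt_KS : Stmt_KS.{u} := by
  intro G _ _ _ X Y z hz
  obtain ⟨x, hx, y, hy, rfl⟩ := mem_add.1 hz
  obtain ⟨H, -, hH⟩ := stmt_kneser G X Y ⟨x, hx⟩ ⟨y, hy⟩
  set Cx := (hf H).image (fun h => x + h) with hCx
  set Cy := (hf H).image (fun h => y + h) with hCy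
  have cCx : Cx.card = Nat.card H := by
    rw [hCx, card_image_of_injective _ (add_right_injective x), card_hf]
  have cCy : Cy.card = Nat.card H := by
    rw [hCy, card_image_of_injective _ (add_right_injective y), card_hf]
  have h1 : (X ∪ Cx).card ≤ (hull H X).card := by
    apply card_le_card
    intro z hz
    rcases mem_union.1 hz with hz | hz
    · exact subset_hull H X hz
    · rw [hCx, mem_image] at hz
      obtain ⟨h, hh, rfl⟩ := hz
      exact mem_hull.2 ⟨x, hx, by simpa using mem_hf.1 hh⟩
  have h2 : (Y ∪ Cy).card ≤ (hull H Y).card := by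
    apply card_le_card
    intro z hz
    rcases mem_union.1 hz with hz | hz
    · exact subset_hull H Y hz
    · rw [hCy, mem_image] at hz
      obtain ⟨h, hh, rfl⟩ := hz
      exact mem_hull.2 ⟨y, hy, by simpa using mem_hf.1 hh⟩
  have h3 := card_union_add_card_inter X Cx
  have h4 := card_union_add_card_inter Y Cy
  set P := (hf H).filter (fun h => x + h ∈ X) with hP
  set Q := (hf H).filter (fun h => y - h ∈ Y) with hQ
  have h5 : (X ∩ Cx).card ≤ P.card := by
    refine (card_le_card (t := P.image (fun h => x + h)) ?_).trans card_image_le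
    intro z hz
    rw [mem_inter, hCx, mem_image] at hz
    obtain ⟨hzX, h, hh, rfl⟩ := hz
    exact mem_image.2 ⟨h, by rw [hP, mem_filter]; exact ⟨hh, hzX⟩, rfl⟩
  have h6 : (Y ∩ Cy).card ≤ Q.card := by
    refine (card_le_card (t := Q.image (fun h => y - h)) ?_).trans card_image_le
    intro z hz
    rw [mem_inter, hCy, mem_image] at hz
    obtain ⟨hzY, h, hh, rfl⟩ := hz
    refine mem_image.2 ⟨-h, ?_, by abel⟩
    rw [hQ, mem_filter]
    refine ⟨mem_hf.2 (H.neg_mem (mem_hf.1 hh)), ?_⟩
    rw [sub_neg_eq_add]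
    exact hzY
  have h7 := card_union_add_card_inter P Q
  have h8 : (P ∪ Q).card ≤ Nat.card H := by
    rw [← card_hf H]
    apply card_le_card
    intro z hz
    rcases mem_union.1 hz with hz | hz
    · exact (mem_filter.1 hz).1
    · exact (mem_filter.1 hz).1
  have h9 : (P ∩ Q).card ≤ (X.filter (fun a => x + y - a ∈ Y)).card := by
    rw [← card_image_of_injective (P ∩ Q) (add_right_injective x)]
    apply card_le_card
    intro w hw
    rw [mem_image] at hw
    obtain ⟨h, hh, rfl⟩ := hw
    rw [mem_inter, hP, hQ, mem_filter, mem_filter] at hh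
    rw [mem_filter]
    refine ⟨hh.1.2, ?_⟩
    have : x + y - (x + h) = y - h := by abel
    rw [this]
    exact hh.2.2
  omega

end Pool.Agent.Work.MP_59976d_co
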